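import Mathlib
import Pool.Agent.H78.PB.Stm4

/-!
Project PB, part C, stub CHO: interpolation between neighbouring nodes.
-/

set_option autoImplicit false

namespace Pool.Agent.H13PB.CHO

open Pool.Agent.H78.PB

lemma log_ub {x : ℝ} (hx : 1 ≤ x) : Real.log x ≤ (x - x⁻¹) / 2 := by
  have h0 : 0 ≤ Real.log x := Real.log_nonneg hx
  have h1 := Real.self_le_sinh_iff.2 h0
  rwa [Real.sinh_log (by linarith)] at h1

lemma step (i : ℕ) (s₀ r₀ s₁ r₁ M s : ℝ)
    (h0 : nodesC[i]? = some (s₀, r₀)) (h1 : nodesC[i + 1]? = some (s₁, r₁))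
    (hs1 : 0 < s₁) (h : s₁ < s₀) (ha : s₁ ≤ s) (hb : s ≤ s₀)
    (hr0 : 0 < r₀) (hr1 : 0 < r₁) (hM0 : r₀ ≤ M) (hM1 : r₁ ≤ M)
    (hL1 : (s₀ / s₁ - (s₀ / s₁)⁻¹) / 2 ≤ 1)
    (hE : M * (1 + ((s₀ / s₁ - (s₀ / s₁)⁻¹) / 2) ^ 2 / 8 +
      (((s₀ / s₁ - (s₀ / s₁)⁻¹) / 2) ^ 2 / 8) ^ 2) ≤ 100499 / 100000) :
    ∃ (i : ℕ) (s₀ r₀ s₁ r₁ t : ℝ),
      nodesC[i]? = some (s₀, r₀) ∧ nodesC[i + 1]? = some (s₁, r₁) ∧ 0 ≤ t ∧ t ≤ 1 ∧
      s = (1 - t) * s₀ + t * s₁ ∧ s₁ < s₀ ∧
      r₀ ^ (1 - t) * r₁ ^ t * Real.exp (Real.log (s₀ / s₁) ^ 2 / 8) ≤ 100499 / 100000 := by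
  have hd : 0 < s₀ - s₁ := by linarith
  have ht0 : 0 ≤ (s₀ - s) / (s₀ - s₁) := div_nonneg (by linarith) hd.le
  have ht1 : (s₀ - s) / (s₀ - s₁) ≤ 1 := by rw [div_le_one hd]; linarith
  refine ⟨i, s₀, r₀, s₁, r₁, (s₀ - s) / (s₀ - s₁), h0, h1, ht0, ht1, ?_, h, ?_⟩
  · field_simp
    ring
  · set t := (s₀ - s) / (s₀ - s₁)
    have hx : 1 ≤ s₀ / s₁ := by rw [one_le_div hs1]; exact h.le
    set L := (s₀ / s₁ - (s₀ / s₁)⁻¹) / 2 with hL
    have hl0 : 0 ≤ Real.log (s₀ / s₁) := Real.log_nonneg hx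
    have hl1 : Real.log (s₀ / s₁) ≤ L := log_ub hx
    have hL0 : 0 ≤ L := hl0.trans hl1
    have hsq : Real.log (s₀ / s₁) ^ 2 / 8 ≤ L ^ 2 / 8 := by
      have : Real.log (s₀ / s₁) ^ 2 ≤ L ^ 2 := pow_le_pow_left₀ hl0 hl1 2
      linarith
    have hL2 : L ^ 2 / 8 ≤ 1 := by nlinarith
    have hL20 : 0 ≤ L ^ 2 / 8 := by positivity
    have hexp : Real.exp (Real.log (s₀ / s₁) ^ 2 / 8) ≤ 1 + L ^ 2 / 8 + (L ^ 2 / 8) ^ 2 := by
      refine (Real.exp_le_exp.2 hsq).trans ?_
      have := Real.abs_exp_sub_one_sub_id_le (x := L ^ 2 / 8) (by rw [abs_of_nonneg hL20]; exact hL2)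
      have := (abs_le.1 this).2
      linarith
    have hM : 0 < M := hr0.trans_le hM0
    have hpow : r₀ ^ (1 - t) * r₁ ^ t ≤ M := by
      have e0 : r₀ ^ (1 - t) ≤ M ^ (1 - t) := Real.rpow_le_rpow hr0.le hM0 (by linarith)
      have e1 : r₁ ^ t ≤ M ^ t := Real.rpow_le_rpow hr1.le hM1 ht0
      calc r₀ ^ (1 - t) * r₁ ^ t ≤ M ^ (1 - t) * M ^ t :=
            mul_le_mul e0 e1 (Real.rpow_nonneg hr1.le _) (Real.rpow_nonneg hM.le _)
        _ = M := by
            rw [← Real.rpow_add hM]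
            simp
    calc r₀ ^ (1 - t) * r₁ ^ t * Real.exp (Real.log (s₀ / s₁) ^ 2 / 8)
        ≤ M * (1 + L ^ 2 / 8 + (L ^ 2 / 8) ^ 2) :=
          mul_le_mul hpow hexp (Real.exp_pos _).le hM.le
      _ ≤ 100499 / 100000 := hE

theorem t : C_CHO := by
  intro s hs hs'
  by_cases c1 : 9 / 20 ≤ s
  · exact step 0 (1 / 2) 1 (9 / 20) (10035 / 10000) (10035 / 10000) s rfl rfl (by norm_num) (by norm_num)
      c1 hs' (by norm_num) (by norm_num) (by norm_num) (by norm_num) (by norm_num) (by norm_num)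
  push Not at c1
  by_cases c2 : 5 / 12 ≤ s
  · exact step 1 (9 / 20) (10035 / 10000) (5 / 12) (10040 / 10000) (10040 / 10000) s rfl rfl
      (by norm_num) (by norm_num) c2 c1.le (by norm_num) (by norm_num) (by norm_num) (by norm_num)
      (by norm_num) (by norm_num)
  push Not at c2
  by_cases c3 : 11 / 28 ≤ s
  · exact step 2 (5 / 12) (10040 / 10000) (11 / 28) (10044 / 10000) (10044 / 10000) s rfl rfl
      (by norm_num) (by norm_num) c3 c2.le (by norm_num) (by norm_num) (by norm_num) (by norm_num)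
      (by norm_num) (by norm_num)
  push Not at c3
  by_cases c4 : 3 / 8 ≤ s
  · exact step 3 (11 / 28) (10044 / 10000) (3 / 8) (10045 / 10000) (10045 / 10000) s rfl rfl
      (by norm_num) (by norm_num) c4 c3.le (by norm_num) (by norm_num) (by norm_num) (by norm_num)
      (by norm_num) (by norm_num)
  push Not at c4
  by_cases c5 : 5 / 14 ≤ s
  · exact step 4 (3 / 8) (10045 / 10000) (5 / 14) (10046 / 10000) (10046 / 10000) s rfl rfl
      (by norm_num) (by norm_num) c5 c4.le (by norm_num) (by norm_num) (by norm_num) (by norm_num)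
      (by norm_num) (by norm_num)
  push Not at c5
  by_cases c6 : 11 / 32 ≤ s
  · exact step 5 (5 / 14) (10046 / 10000) (11 / 32) (10046 / 10000) (10046 / 10000) s rfl rfl
      (by norm_num) (by norm_num) c6 c5.le (by norm_num) (by norm_num) (by norm_num) (by norm_num)
      (by norm_num) (by norm_num)
  push Not at c6
  by_cases c7 : 1 / 3 ≤ s
  · exact step 6 (11 / 32) (10046 / 10000) (1 / 3) (10043 / 10000) (10046 / 10000) s rfl rfl
      (by norm_num) (by norm_num) c7 c6.le (by norm_num) (by norm_num) (by norm_num) (by norm_num)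
      (by norm_num) (by norm_num)
  push Not at c7
  by_cases c8 : 5 / 16 ≤ s
  · exact step 7 (1 / 3) (10043 / 10000) (5 / 16) (10039 / 10000) (10043 / 10000) s rfl rfl
      (by norm_num) (by norm_num) c8 c7.le (by norm_num) (by norm_num) (by norm_num) (by norm_num)
      (by norm_num) (by norm_num)
  push Not at c8
  by_cases c9 : 2 / 7 ≤ s
  · exact step 8 (5 / 16) (10039 / 10000) (2 / 7) (10027 / 10000) (10039 / 10000) s rfl rfl
      (by norm_num) (by norm_num) c9 c8.le (by norm_num) (by norm_num) (by norm_num) (by norm_num)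
      (by norm_num) (by norm_num)
  push Not at c9
  by_cases c10 : 1 / 4 ≤ s
  · exact step 9 (2 / 7) (10027 / 10000) (1 / 4) 1 (10027 / 10000) s rfl rfl
      (by norm_num) (by norm_num) c10 c9.le (by norm_num) (by norm_num) (by norm_num) (by norm_num)
      (by norm_num) (by norm_num)
  push Not at c10
  by_cases c11 : 9 / 40 ≤ s
  · exact step 10 (1 / 4) 1 (9 / 40) (10018 / 10000) (10018 / 10000) s rfl rfl
      (by norm_num) (by norm_num) c11 c10.le (by norm_num) (by norm_num) (by norm_num) (by norm_num)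
      (by norm_num) (by norm_num)
  push Not at c11
  by_cases c12 : 11 / 56 ≤ s
  · exact step 11 (9 / 40) (10018 / 10000) (11 / 56) (10022 / 10000) (10022 / 10000) s rfl rfl
      (by norm_num) (by norm_num) c12 c11.le (by norm_num) (by norm_num) (by norm_num) (by norm_num)
      (by norm_num) (by norm_num)
  push Not at c12
  by_cases c13 : 5 / 28 ≤ s
  · exact step 12 (11 / 56) (10022 / 10000) (5 / 28) (10023 / 10000) (10023 / 10000) s rfl rfl
      (by norm_num) (by norm_num) c13 c12.le (by norm_num) (by norm_num) (by norm_num) (by norm_num)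
      (by norm_num) (by norm_num)
  push Not at c13
  exact step 13 (5 / 28) (10023 / 10000) (1 / 6) 1 (10023 / 10000) s rfl rfl
      (by norm_num) (by norm_num) hs c13.le (by norm_num) (by norm_num) (by norm_num) (by norm_num)
      (by norm_num) (by norm_num)

end Pool.Agent.H13PB.CHO
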