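import Pool.Agent.H78.PB.Stm4
import Pool.Agent.H38PB.NMK

/-!
Project PB, part C, stub CNM: the constants of the improved inequality against the conjectured ones.
-/

set_option autoImplicit false

namespace Pool.Agent.H13PB.CNM

open Pool.Agent.H78.PB Pool.Agent.N892.BW Pool.Agent.H38PB.NMK

lemma gs_low (hG : C_GLB) (s g : ℝ) (a b : ℕ) (hs : 0 < s) (hs' : s ≤ 1 / 2) (hb : b ≠ 0)
    (hab : 2 * ((1 - 2 * s) * b) = a) (hg : 0 ≤ g)
    (h : g ^ b * 3 ^ a ≤ (Qn 9 s * (1 - (1 - 2 * s) / (24 * 81))) ^ b) : g ≤ Gs s := by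
  have hQ : 0 < Qn 9 s := by
    unfold Qn
    refine Finset.prod_pos fun j _ => div_pos ?_ ?_
    · have : (0 : ℝ) ≤ j := Nat.cast_nonneg j
      linarith
    · have : (0 : ℝ) ≤ j := Nat.cast_nonneg j
      linarith
  have h1 := hG 9 s (by norm_num) hs hs'
  push_cast at h1
  have e9 : (24 * (9 : ℝ) ^ 2) = 24 * 81 := by norm_num
  rw [e9] at h1
  set x := (1 - 2 * s) / (24 * 81) with hx
  set w := (9 : ℝ) ^ (-(1 - 2 * s)) with hw
  have hw0 : 0 < w := Real.rpow_pos_of_pos (by norm_num) _
  have hwb : w ^ b * 3 ^ a = 1 := by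
    have e1 : w ^ b = (3 : ℝ) ^ (-(a : ℝ)) := by
      rw [hw, ← Real.rpow_natCast, ← Real.rpow_mul (by norm_num), ← hab]
      have e3 : (9 : ℝ) = (3 : ℝ) ^ (2 : ℝ) := by norm_num
      rw [e3, ← Real.rpow_mul (by norm_num)]
      congr 1
      ring
    rw [e1, Real.rpow_neg (by norm_num), Real.rpow_natCast]
    field_simp
  have hx1 : 0 ≤ 1 - x := by
    have : x ≤ 1 := by
      rw [hx, div_le_one (by norm_num)]
      linarith
    linarith
  have h2 : g ^ b ≤ (Qn 9 s * (1 - x) * w) ^ b := by
    rw [mul_pow _ w]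
    have h3 : (3 : ℝ) ^ a > 0 := by positivity
    have h4 : g ^ b * 3 ^ a * w ^ b ≤ (Qn 9 s * (1 - x)) ^ b * w ^ b :=
      mul_le_mul_of_nonneg_right h (by positivity)
    calc g ^ b = g ^ b * (w ^ b * 3 ^ a) := by rw [hwb, mul_one]
      _ = g ^ b * 3 ^ a * w ^ b := by ring
      _ ≤ _ := h4
  have h5 : g ≤ Qn 9 s * (1 - x) * w :=
    (pow_le_pow_iff_left₀ hg (by positivity) hb).1 h2
  refine h5.trans (le_trans ?_ h1)
  have h6 : 1 - x ≤ Real.exp (-x) := by
    have := Real.add_one_le_exp (-x)
    linarith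
  calc Qn 9 s * (1 - x) * w = Qn 9 s * w * (1 - x) := by ring
    _ ≤ Qn 9 s * w * Real.exp (-x) := mul_le_mul_of_nonneg_left h6 (by positivity)

theorem t (hG : C_GLB) : C_CNM := by
  intro h
  refine ⟨?_, ?_, ?_, ?_, ?_, ?_, ?_, ?_, ?_⟩
  · have h1 := bb_le (1/5) _ h rfl (by norm_num)
    refine le_trans ?_ (mul_le_mul_of_nonneg_left
      (gs_low hG (9/20) (6089 / 5000) 1 5 (by norm_num) (by norm_num)
        (by norm_num) (by norm_num) (by norm_num) ?_) (by norm_num))
    · unfold KK
      refine node (aa (1/5)) (bb (1/5)) _ _ (2 - 1/5) (1/5) 4 1 ?_ h1.1 h1.2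
        (by norm_num) (by norm_num) (by norm_num) (by norm_num) (by norm_num) ?_
      · unfold aa; norm_num
      · unfold aa; norm_num
    · simp only [Qn, Finset.prod_range_succ, Finset.prod_range_zero]
      norm_num
  · have h1 := bb_le (1/3) _ h rfl (by norm_num)
    refine le_trans ?_ (mul_le_mul_of_nonneg_left
      (gs_low hG (5/12) (34793 / 25000) 1 3 (by norm_num) (by norm_num)
        (by norm_num) (by norm_num) (by norm_num) ?_) (by norm_num))
    · unfold KK
      refine node (aa (1/3)) (bb (1/3)) _ _ (2 - 1/3) (1/3) 2 1 ?_ h1.1 h1.2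
        (by norm_num) (by norm_num) (by norm_num) (by norm_num) (by norm_num) ?_
      · unfold aa; norm_num
      · unfold aa; norm_num
    · simp only [Qn, Finset.prod_range_succ, Finset.prod_range_zero]
      norm_num
  · have h1 := bb_le (3/7) _ h rfl (by norm_num)
    refine le_trans ?_ (mul_le_mul_of_nonneg_left
      (gs_low hG (11/28) (9587 / 6250) 3 7 (by norm_num) (by norm_num)
        (by norm_num) (by norm_num) (by norm_num) ?_) (by norm_num))
    · unfold KK
      refine node (aa (3/7)) (bb (3/7)) _ _ (2 - 3/7) (3/7) 4 3 ?_ h1.1 h1.2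
        (by norm_num) (by norm_num) (by norm_num) (by norm_num) (by norm_num) ?_
      · unfold aa; norm_num
      · unfold aa; norm_num
    · simp only [Qn, Finset.prod_range_succ, Finset.prod_range_zero]
      norm_num
  · have h1 := bb_le (1/2) _ h rfl (by norm_num)
    refine le_trans ?_ (mul_le_mul_of_nonneg_left
      (gs_low hG (3/8) (4131 / 2500) 1 2 (by norm_num) (by norm_num)
        (by norm_num) (by norm_num) (by norm_num) ?_) (by norm_num))
    · unfold KK
      refine node (aa (1/2)) (bb (1/2)) _ _ (2 - 1/2) (1/2) 1 1 ?_ h1.1 h1.2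
        (by norm_num) (by norm_num) (by norm_num) (by norm_num) (by norm_num) ?_
      · unfold aa; norm_num
      · unfold aa; norm_num
    · simp only [Qn, Finset.prod_range_succ, Finset.prod_range_zero]
      norm_num
  · have h1 := bb_le (4/7) _ h rfl (by norm_num)
    refine le_trans ?_ (mul_le_mul_of_nonneg_left
      (gs_low hG (5/14) (89137 / 50000) 4 7 (by norm_num) (by norm_num)
        (by norm_num) (by norm_num) (by norm_num) ?_) (by norm_num))
    · unfold KK
      refine node (aa (4/7)) (bb (4/7)) _ _ (2 - 4/7) (4/7) 3 4 ?_ h1.1 h1.2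
        (by norm_num) (by norm_num) (by norm_num) (by norm_num) (by norm_num) ?_
      · unfold aa; norm_num
      · unfold aa; norm_num
    · simp only [Qn, Finset.prod_range_succ, Finset.prod_range_zero]
      norm_num
  · have h1 := bb_le (5/8) _ h rfl (by norm_num)
    refine le_trans ?_ (mul_le_mul_of_nonneg_left
      (gs_low hG (11/32) (188941 / 100000) 5 8 (by norm_num) (by norm_num)
        (by norm_num) (by norm_num) (by norm_num) ?_) (by norm_num))
    · unfold KK
      refine node (aa (5/8)) (bb (5/8)) _ _ (2 - 5/8) (5/8) 3 5 ?_ h1.1 h1.2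
        (by norm_num) (by norm_num) (by norm_num) (by norm_num) (by norm_num) ?_
      · unfold aa; norm_num
      · unfold aa; norm_num
    · simp only [Qn, Finset.prod_range_succ, Finset.prod_range_zero]
      norm_num
  · have h1 := bb_le (2/3) _ h rfl (by norm_num)
    refine le_trans ?_ (mul_le_mul_of_nonneg_left
      (gs_low hG (1/3) (24729 / 12500) 2 3 (by norm_num) (by norm_num)
        (by norm_num) (by norm_num) (by norm_num) ?_) (by norm_num))
    · unfold KK
      refine node (aa (2/3)) (bb (2/3)) _ _ (2 - 2/3) (2/3) 1 2 ?_ h1.1 h1.2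
        (by norm_num) (by norm_num) (by norm_num) (by norm_num) (by norm_num) ?_
      · unfold aa; norm_num
      · unfold aa; norm_num
    · simp only [Qn, Finset.prod_range_succ, Finset.prod_range_zero]
      norm_num
  · have h1 := bb_le (3/4) _ h rfl (by norm_num)
    refine le_trans ?_ (mul_le_mul_of_nonneg_left
      (gs_low hG (5/16) (108701 / 50000) 3 4 (by norm_num) (by norm_num)
        (by norm_num) (by norm_num) (by norm_num) ?_) (by norm_num))
    · unfold KK
      refine node (aa (3/4)) (bb (3/4)) _ _ (2 - 3/4) (3/4) 1 3 ?_ h1.1 h1.2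
        (by norm_num) (by norm_num) (by norm_num) (by norm_num) (by norm_num) ?_
      · unfold aa; norm_num
      · unfold aa; norm_num
    · simp only [Qn, Finset.prod_range_succ, Finset.prod_range_zero]
      norm_num
  · have h1 := bb_le (6/7) _ h rfl (by norm_num)
    refine le_trans ?_ (mul_le_mul_of_nonneg_left
      (gs_low hG (2/7) (123393 / 50000) 6 7 (by norm_num) (by norm_num)
        (by norm_num) (by norm_num) (by norm_num) ?_) (by norm_num))
    · unfold KK
      refine node (aa (6/7)) (bb (6/7)) _ _ (2 - 6/7) (6/7) 1 6 ?_ h1.1 h1.2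
        (by norm_num) (by norm_num) (by norm_num) (by norm_num) (by norm_num) ?_
      · unfold aa; norm_num
      · unfold aa; norm_num
    · simp only [Qn, Finset.prod_range_succ, Finset.prod_range_zero]
      norm_num

end Pool.Agent.H13PB.CNM
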