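import Mathlib
import Pool.Agent.N892.BW.Stm3
import Pool.Agent.N892.BW.SUP_A

/-!
Project PB, part SUQ, first file: convexity with a quadratic error, real exponents.
-/

set_option autoImplicit false

open MeasureTheory ENNReal Filter Topology Complex
open scoped ComplexConjugate ContDiff FourierTransform

namespace Pool.Agent.H13PB.RSUQ

open Pool.Agent.N892.BW

/-! ### numerical inequalities -/

theorem rpred {x m : ℝ} (hx : 0 ≤ x) (hm : 1 < m) : x ^ m = x ^ (m - 1) * x := by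
  have := Real.rpow_add_one' hx (y := m - 1) (by linarith)
  rwa [sub_add_cancel] at this

theorem rpredE {m : ℝ} (hm : 1 ≤ m) (x : ℝ≥0∞) : x ^ m = x ^ (m - 1) * x := by
  have := ENNReal.rpow_add_of_nonneg (x := x) (m - 1) 1 (by linarith) zero_le_one
  rwa [sub_add_cancel, ENNReal.rpow_one] at this

theorem bern {m : ℝ} (hm : 1 < m) {v q : ℝ} (hv : 0 ≤ v) (hq : 0 ≤ q) :
    v ^ m + m * (v ^ (m - 1) * q) ≤ q ^ m + m * v ^ m := by
  rcases hv.eq_or_lt with h0 | h0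
  · rw [← h0, Real.zero_rpow (by linarith), Real.zero_rpow (by linarith)]
    have := Real.rpow_nonneg hq m
    simpa using this
  · have h1 := one_add_mul_self_le_rpow_one_add (s := q / v - 1) (by
      have : 0 ≤ q / v := by positivity
      linarith) hm.le
    have h2 : 1 + (q / v - 1) = q / v := by ring
    rw [h2, Real.div_rpow hq hv] at h1
    have hvm : 0 < v ^ m := Real.rpow_pos_of_pos h0 m
    have h3 := mul_le_mul_of_nonneg_left h1 hvm.le
    rw [mul_div_cancel₀ _ hvm.ne'] at h3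
    have h4 : v ^ m * (q / v) = v ^ (m - 1) * q := by
      rw [rpred hv hm]
      field_simp
    have h5 : v ^ m * (1 + m * (q / v - 1)) = v ^ m + m * (v ^ (m - 1) * q) - m * v ^ m := by
      rw [← h4]
      ring
    rw [h5] at h3
    linarith

theorem ofReal_pow_rpow {a : ℝ} (ha : 0 ≤ a) {r : ℝ} (hr : 0 ≤ r) :
    (ENNReal.ofReal a) ^ r = ENNReal.ofReal (a ^ r) :=
  ENNReal.ofReal_rpow_of_nonneg ha hr

theorem bernE {m : ℝ} (hm : 1 < m) {V Q : ℝ≥0∞} (hV : V ≠ ⊤) :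
    V ^ m + ENNReal.ofReal m * (V ^ (m - 1) * Q) ≤ Q ^ m + ENNReal.ofReal m * V ^ m := by
  by_cases hQ : Q = ⊤
  · rw [hQ, ENNReal.top_rpow_of_pos (by linarith), top_add]
    exact le_top
  · obtain ⟨v, hv, rfl⟩ : ∃ v : ℝ, 0 ≤ v ∧ V = ENNReal.ofReal v :=
      ⟨V.toReal, ENNReal.toReal_nonneg, (ENNReal.ofReal_toReal hV).symm⟩
    obtain ⟨q, hq, rfl⟩ : ∃ q : ℝ, 0 ≤ q ∧ Q = ENNReal.ofReal q :=
      ⟨Q.toReal, ENNReal.toReal_nonneg, (ENNReal.ofReal_toReal hQ).symm⟩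
    have hm0 : 0 ≤ m := by linarith
    have hm1 : 0 ≤ m - 1 := by linarith
    have h1 := Real.rpow_nonneg hv m
    have h2 := Real.rpow_nonneg hv (m - 1)
    have h3 := Real.rpow_nonneg hq m
    rw [ofReal_pow_rpow hv hm0, ofReal_pow_rpow hv hm1, ofReal_pow_rpow hq hm0,
      ← ENNReal.ofReal_mul h2, ← ENNReal.ofReal_mul hm0, ← ENNReal.ofReal_mul hm0,
      ← ENNReal.ofReal_add h1 (by positivity), ← ENNReal.ofReal_add h3 (by positivity)]
    exact ENNReal.ofReal_le_ofReal (bern hm hv hq)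

/-- difference of powers -/
theorem pow_diff {m x y : ℝ} (hm : 1 < m) (hx : 0 < x) (hy : 0 ≤ y) (hyx : y ≤ x) :
    x ^ (m - 1) - y ^ (m - 1) ≤ m * (x - y) * x ^ (m - 1 - 1) := by
  obtain ⟨r, hr⟩ : ∃ r, r = m - 1 := ⟨_, rfl⟩
  have hr0 : 0 < r := by linarith
  rw [← hr]
  obtain ⟨t, ht⟩ : ∃ t, t = y / x := ⟨_, rfl⟩
  have ht0 : 0 ≤ t := by rw [ht]; positivity
  have ht1 : t ≤ 1 := by rw [ht]; exact (div_le_one hx).2 hyx
  have h1 : 1 - t ^ r ≤ m * (1 - t) := by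
    rcases le_total 1 r with h | h
    · have h2 := one_add_mul_self_le_rpow_one_add (s := t - 1) (by linarith) h
      rw [show 1 + (t - 1) = t by ring] at h2
      nlinarith
    · have h2 := Real.rpow_le_rpow_of_exponent_ge' ht0 ht1 hr0.le h
      rw [Real.rpow_one] at h2
      nlinarith
  have hyt : y = t * x := by
    rw [ht]
    field_simp
  have h3 : x ^ r = x ^ (r - 1) * x := by
    have := Real.rpow_add_one hx.ne' (r - 1)
    rwa [sub_add_cancel] at this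
  have h4 : y ^ r = t ^ r * (x ^ (r - 1) * x) := by
    rw [hyt, Real.mul_rpow ht0 hx.le, h3]
  have h5 : 0 ≤ x ^ (r - 1) * x := by
    rw [← h3]
    exact Real.rpow_nonneg hx.le r
  rw [h4, h3]
  calc x ^ (r - 1) * x - t ^ r * (x ^ (r - 1) * x) = (1 - t ^ r) * (x ^ (r - 1) * x) := by ring
    _ ≤ (m * (1 - t)) * (x ^ (r - 1) * x) := mul_le_mul_of_nonneg_right h1 h5
    _ = m * (x - y) * x ^ (r - 1) := by
      rw [hyt]
      ring

theorem quad0 {m : ℝ} (hm : 1 < m) {a a' d : ℝ} (ha : 0 ≤ a) (ha' : 0 ≤ a') (haa : a' ≤ a)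
    (hd : |a - a'| ≤ d) :
    (a ^ 2) ^ m + (a' ^ 2) ^ m ≤ (a ^ 2) ^ (m - 1) * a' ^ 2 + (a' ^ 2) ^ (m - 1) * a ^ 2 +
      4 * m * (d ^ 2 * (a + a') ^ (2 * m - 2)) := by
  have hd0 : 0 ≤ d := (abs_nonneg _).trans hd
  rcases ha.eq_or_lt with h0 | h0
  · have h1 : a' = 0 := by linarith
    subst h1
    subst h0
    rw [rpred (by positivity) hm]
    have : 0 ≤ 4 * m * (d ^ 2 * ((0 : ℝ) + 0) ^ (2 * m - 2)) := by
      have := Real.rpow_nonneg (show (0 : ℝ) ≤ 0 + 0 by norm_num) (2 * m - 2)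
      positivity
    linarith
  · have hx : 0 < a ^ 2 := by positivity
    have hy : 0 ≤ a' ^ 2 := by positivity
    have hyx : a' ^ 2 ≤ a ^ 2 := by gcongr
    have h1 := pow_diff hm hx hy hyx
    have h2 : a ^ 2 - a' ^ 2 ≤ d * (a + a') := by
      have e : a ^ 2 - a' ^ 2 = (a - a') * (a + a') := by ring
      rw [e]
      exact mul_le_mul_of_nonneg_right ((le_abs_self _).trans hd) (by positivity)
    have h20 : 0 ≤ a ^ 2 - a' ^ 2 := by linarith
    obtain ⟨s, hs⟩ : ∃ s, s = a + a' := ⟨_, rfl⟩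
    have hs0 : 0 < s := by linarith
    rw [← hs] at h2 ⊢
    have h3 : s ^ 2 * (a ^ 2) ^ (m - 1 - 1) ≤ 4 * s ^ (2 * m - 2) := by
      have e1 : s ^ (2 * m - 2) = s ^ 2 * (s ^ 2) ^ (m - 1 - 1) := by
        rw [← Real.rpow_natCast s 2, ← Real.rpow_mul hs0.le, ← Real.rpow_add hs0]
        congr 1
        push_cast
        ring
      rw [e1]
      rcases le_total 0 (m - 1 - 1) with h | h
      · have h4 : (a ^ 2) ^ (m - 1 - 1) ≤ (s ^ 2) ^ (m - 1 - 1) :=
          Real.rpow_le_rpow hx.le (by gcongr; linarith) h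
        have h5 : 0 ≤ s ^ 2 * (s ^ 2) ^ (m - 1 - 1) := by positivity
        calc s ^ 2 * (a ^ 2) ^ (m - 1 - 1) ≤ s ^ 2 * (s ^ 2) ^ (m - 1 - 1) := by gcongr
          _ ≤ 4 * (s ^ 2 * (s ^ 2) ^ (m - 1 - 1)) := by linarith
      · have h4 : (a ^ 2) ^ (m - 1 - 1) ≤ (s ^ 2 / 4) ^ (m - 1 - 1) := by
          refine Real.rpow_le_rpow_of_nonpos (by positivity) ?_ h
          have : s ≤ 2 * a := by linarith
          nlinarith
        have h5 : (s ^ 2 / 4) ^ (m - 1 - 1) ≤ 4 * (s ^ 2) ^ (m - 1 - 1) := by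
          rw [Real.div_rpow (by positivity) (by norm_num), div_eq_mul_inv, mul_comm,
            ← Real.rpow_neg (by norm_num)]
          have h6 : (4 : ℝ) ^ (-(m - 1 - 1)) ≤ 4 := by
            calc (4 : ℝ) ^ (-(m - 1 - 1)) ≤ 4 ^ (1 : ℝ) :=
                  Real.rpow_le_rpow_of_exponent_le (by norm_num) (by linarith)
              _ = 4 := Real.rpow_one 4
          gcongr
        calc s ^ 2 * (a ^ 2) ^ (m - 1 - 1) ≤ s ^ 2 * (4 * (s ^ 2) ^ (m - 1 - 1)) := by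
              have := h4.trans h5
              gcongr
          _ = 4 * (s ^ 2 * (s ^ 2) ^ (m - 1 - 1)) := by ring
    have h6 : ((a ^ 2) ^ (m - 1) - (a' ^ 2) ^ (m - 1)) * (a ^ 2 - a' ^ 2) ≤
        4 * m * (d ^ 2 * s ^ (2 * m - 2)) := by
      have h7 : 0 ≤ (a ^ 2) ^ (m - 1 - 1) := Real.rpow_nonneg hx.le _
      calc ((a ^ 2) ^ (m - 1) - (a' ^ 2) ^ (m - 1)) * (a ^ 2 - a' ^ 2)
          ≤ (m * (a ^ 2 - a' ^ 2) * (a ^ 2) ^ (m - 1 - 1)) * (a ^ 2 - a' ^ 2) :=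
            mul_le_mul_of_nonneg_right h1 h20
        _ = m * ((a ^ 2 - a' ^ 2) * (a ^ 2 - a' ^ 2)) * (a ^ 2) ^ (m - 1 - 1) := by ring
        _ ≤ m * ((d * s) * (d * s)) * (a ^ 2) ^ (m - 1 - 1) := by gcongr
        _ = m * d ^ 2 * (s ^ 2 * (a ^ 2) ^ (m - 1 - 1)) := by ring
        _ ≤ m * d ^ 2 * (4 * s ^ (2 * m - 2)) := by gcongr
        _ = _ := by ring
    rw [rpred hx.le hm, rpred hy hm]
    nlinarith

theorem quad {m : ℝ} (hm : 1 < m) {a a' d : ℝ} (ha : 0 ≤ a) (ha' : 0 ≤ a') (hd : |a - a'| ≤ d) :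
    (a ^ 2) ^ m + (a' ^ 2) ^ m ≤ (a ^ 2) ^ (m - 1) * a' ^ 2 + (a' ^ 2) ^ (m - 1) * a ^ 2 +
      4 * m * (d ^ 2 * (a + a') ^ (2 * m - 2)) := by
  rcases le_total a' a with h | h
  · exact quad0 hm ha ha' h hd
  · have h1 := quad0 hm ha' ha h (d := d) (by rwa [abs_sub_comm])
    rw [add_comm a' a] at h1
    linarith

theorem quadE {m : ℝ} (hm : 1 < m) (u u' : ℂ) :
    (‖u‖ₑ ^ 2) ^ m + (‖u'‖ₑ ^ 2) ^ m ≤ (‖u‖ₑ ^ 2) ^ (m - 1) * ‖u'‖ₑ ^ 2 +
      (‖u'‖ₑ ^ 2) ^ (m - 1) * ‖u‖ₑ ^ 2 +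
      ENNReal.ofReal (4 * m) * (‖u' - u‖ₑ ^ 2 * (‖u‖ₑ + ‖u'‖ₑ) ^ (2 * m - 2)) := by
  have h := quad hm (norm_nonneg u) (norm_nonneg u') (d := ‖u' - u‖) (by
    rw [abs_sub_comm]
    exact abs_norm_sub_norm_le u' u)
  simp only [← ofReal_norm]
  have hm0 : 0 ≤ m := by linarith
  have hm1 : 0 ≤ m - 1 := by linarith
  have hm2 : 0 ≤ 2 * m - 2 := by linarith
  have n1 := norm_nonneg u
  have n2 := norm_nonneg u'
  have n3 := norm_nonneg (u' - u)
  rw [← ENNReal.ofReal_pow n1, ← ENNReal.ofReal_pow n2, ← ENNReal.ofReal_pow n3,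
    ← ENNReal.ofReal_add n1 n2, ofReal_pow_rpow (by positivity) hm0,
    ofReal_pow_rpow (by positivity) hm0, ofReal_pow_rpow (by positivity) hm1,
    ofReal_pow_rpow (by positivity) hm1, ofReal_pow_rpow (by positivity) hm2,
    ← ENNReal.ofReal_mul (by positivity), ← ENNReal.ofReal_mul (by positivity),
    ← ENNReal.ofReal_mul (by positivity), ← ENNReal.ofReal_mul (by positivity),
    ← ENNReal.ofReal_add (by positivity) (by positivity),
    ← ENNReal.ofReal_add (by positivity) (by positivity),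
    ← ENNReal.ofReal_add (by positivity) (by positivity)]
  exact ENNReal.ofReal_le_ofReal h

theorem amgm {m : ℝ} (hm : 1 ≤ m) (x y : ℝ≥0∞) : x ^ (m - 1) * y ≤ x ^ m + y ^ m := by
  rcases le_total x y with h | h
  · calc x ^ (m - 1) * y ≤ y ^ (m - 1) * y := by gcongr
      _ = y ^ m := (rpredE hm y).symm
      _ ≤ x ^ m + y ^ m := le_add_self
  · calc x ^ (m - 1) * y ≤ x ^ (m - 1) * x := by gcongr
      _ = x ^ m := (rpredE hm x).symm
      _ ≤ x ^ m + y ^ m := le_self_add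

/-! ### Jensen -/

theorem jens {m : ℝ} (hm : 1 ≤ m) {W P : ℂ → ℝ≥0∞} (hW : Measurable W) (hP : Measurable P)
    (hW1 : ∫⁻ z, W z = 1) : (∫⁻ z, W z * P z) ^ m ≤ ∫⁻ z, W z * P z ^ m := by
  set μ : Measure ℂ := volume.withDensity W with hμ
  have h0 : μ Set.univ = 1 := by
    rw [hμ, withDensity_apply _ MeasurableSet.univ, Measure.restrict_univ, hW1]
  have hm0 : m ≠ 0 := by positivity
  have h4 := eLpNorm'_le_eLpNorm'_mul_rpow_measure_univ (μ := μ) one_pos hm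
    hP.aestronglyMeasurable
  unfold eLpNorm' at h4
  simp only [enorm_eq_self, ENNReal.rpow_one, div_one] at h4
  rw [h0, ENNReal.one_rpow, mul_one] at h4
  have h5 := ENNReal.rpow_le_rpow h4 (by linarith : 0 ≤ m)
  rw [← ENNReal.rpow_mul, one_div_mul_cancel hm0, ENNReal.rpow_one] at h5
  have e1 : ∫⁻ z, W z * P z = ∫⁻ z, P z ∂μ := by
    rw [hμ, lintegral_withDensity_eq_lintegral_mul _ hW hP]
    rfl
  have e2 : ∫⁻ z, W z * P z ^ m = ∫⁻ z, P z ^ m ∂μ := by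
    rw [hμ, lintegral_withDensity_eq_lintegral_mul _ hW (hP.pow_const m)]
    rfl
  rw [e1, e2]
  exact h5

theorem aver {m : ℝ} (hm : 1 ≤ m) {p P : ℂ → ℝ≥0∞} (hp : Measurable p) (hP : Measurable P)
    (h1 : ∫⁻ y, p y = 1) : ∫⁻ z, (∫⁻ y, p y * P (z + y)) ^ m ≤ ∫⁻ z, P z ^ m := by
  have h2 : ∀ z, (∫⁻ y, p y * P (z + y)) ^ m ≤ ∫⁻ y, p y * P (z + y) ^ m := by
    intro z
    exact jens hm (W := p) (P := fun y => P (z + y)) hp (hP.comp (measurable_const_add z)) h1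
  refine (lintegral_mono h2).trans ?_
  have hmeas : Measurable (Function.uncurry fun z y : ℂ => p y * P (z + y) ^ m) :=
    (hp.comp measurable_snd).mul ((hP.comp (measurable_fst.add measurable_snd)).pow_const m)
  rw [lintegral_lintegral_swap hmeas.aemeasurable]
  have h3 : ∀ y : ℂ, ∫⁻ z, p y * P (z + y) ^ m = p y * ∫⁻ z, P z ^ m := by
    intro y
    have hm1 : Measurable fun z : ℂ => P (z + y) ^ m :=
      (hP.comp (measurable_add_const y)).pow_const m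
    rw [lintegral_const_mul _ hm1, lintegral_add_right_eq_self (fun z => P z ^ m) y]
  rw [lintegral_congr h3, lintegral_mul_const _ hp, h1, one_mul]

/-! ### convexity with a quadratic error -/

theorem sq_rpow (c : ℝ≥0∞) (m : ℝ) : c ^ (2 * m) = (c ^ 2) ^ m := by
  rw [ENNReal.rpow_mul, ENNReal.rpow_two]

theorem conv_err {m : ℝ} (hm : 1 < m) {u : ℂ → ℂ} (hu : Continuous u)
    (hfin : ∫⁻ x, ‖u x‖ₑ ^ (2 * m) ≠ ⊤) {p : ℂ → ℝ≥0∞} (hp : Measurable p)
    (hp1 : ∫⁻ y, p y = 1) (hev : ∀ y, p (-y) = p y) :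
    ∫⁻ x, ‖u x‖ₑ ^ (2 * m) ≤ (∫⁻ x, (∫⁻ y, p y * ‖u (x + y)‖ₑ ^ 2) ^ m) +
      ENNReal.ofReal (2 * m * m) * ∫⁻ x, ∫⁻ y, p y * (‖u (x + y) - u x‖ₑ ^ 2 *
        (‖u x‖ₑ + ‖u (x + y)‖ₑ) ^ (2 * m - 2)) := by
  have hm0 : 0 ≤ m := by linarith
  obtain ⟨V, hV⟩ : ∃ V : ℂ → ℝ≥0∞, ∀ x, V x = ‖u x‖ₑ ^ 2 := ⟨_, fun _ => rfl⟩
  have hVm : Measurable V := by
    have : V = fun x => ‖u x‖ₑ ^ 2 := funext hV
    rw [this]
    exact hu.measurable.enorm.pow_const 2
  have hVt : ∀ x, V x ≠ ⊤ := by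
    intro x
    rw [hV]
    exact ENNReal.pow_ne_top enorm_ne_top
  obtain ⟨I, hI⟩ : ∃ I : ℝ≥0∞, I = ∫⁻ x, V x ^ m := ⟨_, rfl⟩
  have hI' : ∫⁻ x, ‖u x‖ₑ ^ (2 * m) = I := by
    rw [hI]
    refine lintegral_congr fun x => ?_
    rw [hV, sq_rpow]
  have hIt : I ≠ ⊤ := by rwa [hI'] at hfin
  -- measurability on the product
  have hadd : Measurable fun q : ℂ × ℂ => q.1 + q.2 := measurable_fst.add measurable_snd
  have hVa : Measurable fun q : ℂ × ℂ => V (q.1 + q.2) := hVm.comp hadd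
  have hVf : Measurable fun q : ℂ × ℂ => V q.1 := hVm.comp measurable_fst
  have hpS : Measurable fun q : ℂ × ℂ => p q.2 := hp.comp measurable_snd
  obtain ⟨Er, hEr⟩ : ∃ Er : ℂ → ℂ → ℝ≥0∞, ∀ x y, Er x y = ‖u (x + y) - u x‖ₑ ^ 2 *
        (‖u x‖ₑ + ‖u (x + y)‖ₑ) ^ (2 * m - 2) := ⟨_, fun _ _ => rfl⟩
  have hErm : Measurable fun q : ℂ × ℂ => Er q.1 q.2 := by
    have h1 : (fun q : ℂ × ℂ => Er q.1 q.2) = fun q : ℂ × ℂ => ‖u (q.1 + q.2) - u q.1‖ₑ ^ 2 *
        (‖u q.1‖ₑ + ‖u (q.1 + q.2)‖ₑ) ^ (2 * m - 2) := funext fun q => hEr q.1 q.2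
    rw [h1]
    have c1 : Measurable fun q : ℂ × ℂ => u (q.1 + q.2) := hu.measurable.comp hadd
    have c2 : Measurable fun q : ℂ × ℂ => u q.1 := hu.measurable.comp measurable_fst
    exact ((c1.sub c2).enorm.pow_const 2).mul ((c2.enorm.add c1.enorm).pow_const _)
  simp only [← hEr, ← hV]
  rw [hI']
  -- the mixed integral
  obtain ⟨J, hJ⟩ : ∃ J : ℝ≥0∞, J = ∫⁻ x, ∫⁻ y, p y * (V x ^ (m - 1) * V (x + y)) := ⟨_, rfl⟩
  have hsw : ∀ F : ℂ → ℂ → ℝ≥0∞, Measurable (fun q : ℂ × ℂ => F q.1 q.2) →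
      ∫⁻ x, ∫⁻ y, p y * F x y = ∫⁻ y, p y * ∫⁻ x, F x y := by
    intro F hF
    have h1 : Measurable (Function.uncurry fun x y : ℂ => p y * F x y) := hpS.mul hF
    rw [lintegral_lintegral_swap h1.aemeasurable]
    refine lintegral_congr fun y => ?_
    have hFy : Measurable fun x : ℂ => F x y := hF.comp (measurable_id.prodMk measurable_const)
    rw [lintegral_const_mul _ hFy]
  have hI1 : ∫⁻ x, ∫⁻ y, p y * V x ^ m = I := by
    rw [hsw (fun x _ => V x ^ m) (hVf.pow_const m), ← hI, lintegral_mul_const _ hp, hp1, one_mul]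
  have hI2 : ∫⁻ x, ∫⁻ y, p y * V (x + y) ^ m = I := by
    rw [hsw (fun x y => V (x + y) ^ m) (hVa.pow_const m)]
    have h1 : ∀ y : ℂ, p y * ∫⁻ x, V (x + y) ^ m = p y * I := by
      intro y
      rw [lintegral_add_right_eq_self (fun z => V z ^ m) y, ← hI]
    rw [lintegral_congr h1, lintegral_mul_const _ hp, hp1, one_mul]
  have hJ2 : ∫⁻ x, ∫⁻ y, p y * (V (x + y) ^ (m - 1) * V x) = J := by
    rw [hsw (fun x y => V (x + y) ^ (m - 1) * V x) ((hVa.pow_const _).mul hVf), hJ,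
      hsw (fun x y => V x ^ (m - 1) * V (x + y)) ((hVf.pow_const _).mul hVa)]
    rw [← lintegral_neg_eq_self (fun y : ℂ => p y * ∫⁻ x, V x ^ (m - 1) * V (x + y))]
    refine lintegral_congr fun y => ?_
    rw [hev]
    congr 1
    rw [← lintegral_add_right_eq_self (fun x => V x ^ (m - 1) * V (x + -y)) y]
    refine lintegral_congr fun x => ?_
    rw [add_neg_cancel_right]
  have hJt : J ≠ ⊤ := by
    have h1 : J ≤ I + I := by
      calc J ≤ ∫⁻ x, ∫⁻ y, (p y * V x ^ m + p y * V (x + y) ^ m) := by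
            rw [hJ]
            refine lintegral_mono fun x => lintegral_mono fun y => ?_
            rw [← mul_add]
            gcongr
            exact amgm hm.le _ _
        _ = I + I := by
            have h2 : ∀ x, ∫⁻ y, (p y * V x ^ m + p y * V (x + y) ^ m) =
                (∫⁻ y, p y * V x ^ m) + ∫⁻ y, p y * V (x + y) ^ m := by
              intro x
              exact lintegral_add_left (hp.mul_const _) _
            have h3 : Measurable fun x : ℂ => ∫⁻ y, p y * V x ^ m :=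
              Measurable.lintegral_prod_right' (f := fun q : ℂ × ℂ => p q.2 * V q.1 ^ m)
                (hpS.mul (hVf.pow_const m))
            rw [lintegral_congr h2, lintegral_add_left h3, hI1, hI2]
    exact ne_top_of_le_ne_top (ENNReal.add_ne_top.2 ⟨hIt, hIt⟩) h1
  -- first inequality
  obtain ⟨Ls, hLs⟩ : ∃ Ls : ℝ≥0∞, Ls = ∫⁻ x, (∫⁻ y, p y * V (x + y)) ^ m := ⟨_, rfl⟩
  rw [← hLs]
  have hQm : Measurable fun x : ℂ => ∫⁻ y, p y * V (x + y) :=
    Measurable.lintegral_prod_right' (f := fun q : ℂ × ℂ => p q.2 * V (q.1 + q.2)) (hpS.mul hVa)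
  have hA : I + ENNReal.ofReal m * J ≤ Ls + ENNReal.ofReal m * I := by
    have h1 : ∀ x, V x ^ m + ENNReal.ofReal m * (V x ^ (m - 1) * ∫⁻ y, p y * V (x + y)) ≤
        (∫⁻ y, p y * V (x + y)) ^ m + ENNReal.ofReal m * V x ^ m := fun x => bernE hm (hVt x)
    have h2 := lintegral_mono (μ := (volume : Measure ℂ)) h1
    have hq1 : Measurable fun x : ℂ => V x ^ (m - 1) * ∫⁻ y, p y * V (x + y) :=
      (hVm.pow_const _).mul hQm
    rw [lintegral_add_left (hVm.pow_const m), lintegral_add_left (hQm.pow_const m),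
      lintegral_const_mul _ hq1, lintegral_const_mul _ (hVm.pow_const m),
      ← hI, ← hLs] at h2
    have h3 : ∫⁻ x, V x ^ (m - 1) * ∫⁻ y, p y * V (x + y) = J := by
      rw [hJ]
      refine lintegral_congr fun x => ?_
      have hpx : Measurable fun y : ℂ => p y * V (x + y) :=
        hp.mul (hVm.comp (measurable_const_add x))
      rw [← lintegral_const_mul _ hpx]
      refine lintegral_congr fun y => ?_
      ring
    rw [h3] at h2
    exact h2
  -- second inequality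
  obtain ⟨R, hR⟩ : ∃ R : ℝ≥0∞, R = ∫⁻ x, ∫⁻ y, p y * Er x y := ⟨_, rfl⟩
  rw [← hR]
  have hB : I + I ≤ J + J + ENNReal.ofReal (4 * m) * R := by
    have h1 : ∀ x y, p y * V x ^ m + p y * V (x + y) ^ m ≤
        p y * (V x ^ (m - 1) * V (x + y)) + p y * (V (x + y) ^ (m - 1) * V x) +
          ENNReal.ofReal (4 * m) * (p y * Er x y) := by
      intro x y
      have h2 := quadE hm (u x) (u (x + y))
      rw [← hEr, ← hV, ← hV] at h2
      calc p y * V x ^ m + p y * V (x + y) ^ m = p y * (V x ^ m + V (x + y) ^ m) := by ring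
        _ ≤ p y * (V x ^ (m - 1) * V (x + y) + V (x + y) ^ (m - 1) * V x +
              ENNReal.ofReal (4 * m) * Er x y) := by
            gcongr
        _ = _ := by ring
    have h2 := lintegral_mono (μ := (volume : Measure ℂ)) fun x =>
      lintegral_mono (μ := (volume : Measure ℂ)) (h1 x)
    have g1 : Measurable fun q : ℂ × ℂ => p q.2 * V q.1 ^ m := hpS.mul (hVf.pow_const m)
    have g2 : Measurable fun q : ℂ × ℂ => p q.2 * (V q.1 ^ (m - 1) * V (q.1 + q.2)) :=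
      hpS.mul ((hVf.pow_const _).mul hVa)
    have g3 : Measurable fun q : ℂ × ℂ => p q.2 * (V (q.1 + q.2) ^ (m - 1) * V q.1) :=
      hpS.mul ((hVa.pow_const _).mul hVf)
    have g4 : Measurable fun q : ℂ × ℂ => p q.2 * Er q.1 q.2 := hpS.mul hErm
    have s1 : ∀ (F : ℂ × ℂ → ℝ≥0∞), Measurable F → ∀ x : ℂ, Measurable fun y => F (x, y) :=
      fun F hF x => hF.comp (measurable_const.prodMk measurable_id)
    have k1 : Measurable fun x : ℂ => ∫⁻ y, p y * V x ^ m := g1.lintegral_prod_right'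
    have k2 : Measurable fun x : ℂ => ∫⁻ y, p y * (V x ^ (m - 1) * V (x + y)) :=
      g2.lintegral_prod_right'
    have k3 : Measurable fun x : ℂ => ∫⁻ y, p y * (V (x + y) ^ (m - 1) * V x) :=
      g3.lintegral_prod_right'
    have k4 : Measurable fun x : ℂ => ∫⁻ y, p y * Er x y := g4.lintegral_prod_right'
    have j2 : ∀ x : ℂ, Measurable fun y => p y * (V x ^ (m - 1) * V (x + y)) := s1 _ g2
    have j3 : ∀ x : ℂ, Measurable fun y => p y * (V (x + y) ^ (m - 1) * V x) := s1 _ g3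
    have j4 : ∀ x : ℂ, Measurable fun y => p y * Er x y := s1 _ g4
    have e1 : ∫⁻ x, ∫⁻ y, (p y * V x ^ m + p y * V (x + y) ^ m) = I + I := by
      have h3 : ∀ x, ∫⁻ y, (p y * V x ^ m + p y * V (x + y) ^ m) =
          (∫⁻ y, p y * V x ^ m) + ∫⁻ y, p y * V (x + y) ^ m := fun x =>
        lintegral_add_left (hp.mul_const _) _
      rw [lintegral_congr h3, lintegral_add_left k1, hI1, hI2]
    have e2 : ∫⁻ x, ∫⁻ y, (p y * (V x ^ (m - 1) * V (x + y)) +
        p y * (V (x + y) ^ (m - 1) * V x) + ENNReal.ofReal (4 * m) * (p y * Er x y)) =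
        J + J + ENNReal.ofReal (4 * m) * R := by
      have h3 : ∀ x, ∫⁻ y, (p y * (V x ^ (m - 1) * V (x + y)) +
          p y * (V (x + y) ^ (m - 1) * V x) + ENNReal.ofReal (4 * m) * (p y * Er x y)) =
          (∫⁻ y, p y * (V x ^ (m - 1) * V (x + y))) + (∫⁻ y, p y * (V (x + y) ^ (m - 1) * V x)) +
            ENNReal.ofReal (4 * m) * ∫⁻ y, p y * Er x y := by
        intro x
        have j5 : Measurable fun y : ℂ => p y * (V x ^ (m - 1) * V (x + y)) +
          p y * (V (x + y) ^ (m - 1) * V x) := (j2 x).add (j3 x)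
        rw [lintegral_add_left j5, lintegral_add_left (j2 x),
          lintegral_const_mul _ (j4 x)]
      have k5 : Measurable fun x : ℂ => (∫⁻ y, p y * (V x ^ (m - 1) * V (x + y))) +
          ∫⁻ y, p y * (V (x + y) ^ (m - 1) * V x) := k2.add k3
      rw [lintegral_congr h3, lintegral_add_left k5, lintegral_add_left k2,
        lintegral_const_mul _ k4, ← hJ, hJ2, ← hR]
    rw [e1, e2] at h2
    exact h2
  -- combination
  by_cases hRt : R = ⊤
  · rw [hRt]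
    have hm2 : ENNReal.ofReal (2 * m * m) ≠ 0 := by
      have : 0 < 2 * m * m := by positivity
      simpa using this
    rw [ENNReal.mul_top hm2, add_top]
    exact le_top
  by_cases hLt : Ls = ⊤
  · rw [hLt, top_add]
    exact le_top
  obtain ⟨i, hi, hIi⟩ : ∃ v : ℝ, 0 ≤ v ∧ I = ENNReal.ofReal v :=
    ⟨I.toReal, ENNReal.toReal_nonneg, (ENNReal.ofReal_toReal hIt).symm⟩
  obtain ⟨j, hj, hJj⟩ : ∃ v : ℝ, 0 ≤ v ∧ J = ENNReal.ofReal v :=
    ⟨J.toReal, ENNReal.toReal_nonneg, (ENNReal.ofReal_toReal hJt).symm⟩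
  obtain ⟨r, hr, hRr⟩ : ∃ v : ℝ, 0 ≤ v ∧ R = ENNReal.ofReal v :=
    ⟨R.toReal, ENNReal.toReal_nonneg, (ENNReal.ofReal_toReal hRt).symm⟩
  obtain ⟨l, hl, hLl⟩ : ∃ v : ℝ, 0 ≤ v ∧ Ls = ENNReal.ofReal v :=
    ⟨Ls.toReal, ENNReal.toReal_nonneg, (ENNReal.ofReal_toReal hLt).symm⟩
  rw [hIi, hJj, hLl, ← ENNReal.ofReal_mul hm0, ← ENNReal.ofReal_mul hm0,
    ← ENNReal.ofReal_add hi (by positivity), ← ENNReal.ofReal_add hl (by positivity),
    ENNReal.ofReal_le_ofReal_iff (by positivity)] at hA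
  rw [hIi, hJj, hRr, ← ENNReal.ofReal_mul (by positivity), ← ENNReal.ofReal_add hi hi,
    ← ENNReal.ofReal_add hj hj, ← ENNReal.ofReal_add (by positivity) (by positivity),
    ENNReal.ofReal_le_ofReal_iff (by positivity)] at hB
  rw [hIi, hRr, hLl, ← ENNReal.ofReal_mul (by positivity),
    ← ENNReal.ofReal_add hl (by positivity)]
  apply ENNReal.ofReal_le_ofReal
  nlinarith [mul_le_mul_of_nonneg_left hB hm0]

end Pool.Agent.H13PB.RSUQ
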