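import Mathlib
import Pool.Agent.H78.PB.Stm
import Pool.Agent.N892.BW.CMP
import Pool.Agent.H13PB.RSUQ_A

/-!
Project PB, part CMP: comparison of local averages, real exponents.
-/

set_option autoImplicit false

open MeasureTheory ENNReal Filter Topology Complex
open scoped ComplexConjugate ContDiff

namespace Pool.Agent.H13PB.RCMP

open Pool.Agent.N892.BW Pool.Agent.H78.PB
open Pool.Agent.N892.BW.CMP (A A_meas A_conv lint_scale sc_int sc_meas sc_one sc_mom dif)

theorem hold {α : Type*} [MeasurableSpace α] (ν : Measure α) {g : α → ℝ≥0∞}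
    (hg : AEMeasurable g ν) {m : ℝ} (hm : 1 < m) :
    (∫⁻ y, g y ∂ν) ^ m ≤ (ν Set.univ) ^ (m - 1) * ∫⁻ y, g y ^ m ∂ν := by
  have hm0 : (0 : ℝ) < m := by linarith
  have hc : m.HolderConjugate (m / (m - 1)) := Real.HolderConjugate.conjExponent hm
  have h1 := ENNReal.lintegral_mul_le_Lp_mul_Lq ν hc hg
    (aemeasurable_const (b := (1 : ℝ≥0∞)))
  simp only [Pi.mul_apply, mul_one, ENNReal.one_rpow, lintegral_const, one_mul] at h1
  have h2 : (∫⁻ y, g y ∂ν) ^ m ≤ ((∫⁻ y, g y ^ m ∂ν) ^ (1 / m) *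
      (ν Set.univ) ^ (1 / (m / (m - 1)))) ^ m := ENNReal.rpow_le_rpow h1 hm0.le
  refine h2.trans (le_of_eq ?_)
  rw [ENNReal.mul_rpow_of_nonneg _ _ hm0.le, ← ENNReal.rpow_mul, ← ENNReal.rpow_mul, mul_comm]
  congr 1
  · congr 1
    have : m - 1 ≠ 0 := by linarith
    field_simp
  · have : 1 / m * m = 1 := by field_simp
    rw [this, ENNReal.rpow_one]

theorem young {k G : ℂ → ℝ≥0∞} (hk : Measurable k) (hG : Measurable G) {m : ℝ} (hm : 1 < m) :
    ∫⁻ z, (A k G z) ^ m ≤ (∫⁻ y, k y) ^ m * ∫⁻ z, G z ^ m := by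
  have h1 : ∀ z, (A k G z) ^ m ≤ (∫⁻ y, k y) ^ (m - 1) * ∫⁻ y, k y * G (z + y) ^ m := by
    intro z
    have hGz : Measurable fun y => G (z + y) := hG.comp (measurable_const.add measurable_id)
    have h2 := hold (volume.withDensity k) hGz.aemeasurable hm
    rw [lintegral_withDensity_eq_lintegral_mul _ hk hGz,
      lintegral_withDensity_eq_lintegral_mul _ hk (hGz.pow_const m),
      withDensity_apply _ MeasurableSet.univ, Measure.restrict_univ] at h2
    exact h2
  have hjoint : Measurable (Function.uncurry fun z y : ℂ => k y * G (z + y) ^ m) :=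
    (hk.comp measurable_snd).mul ((hG.comp (measurable_fst.add measurable_snd)).pow_const m)
  calc ∫⁻ z, (A k G z) ^ m
      ≤ ∫⁻ z, (∫⁻ y, k y) ^ (m - 1) * ∫⁻ y, k y * G (z + y) ^ m := lintegral_mono h1
    _ = (∫⁻ y, k y) ^ (m - 1) * ∫⁻ z, ∫⁻ y, k y * G (z + y) ^ m :=
        lintegral_const_mul _ hjoint.lintegral_prod_right
    _ = (∫⁻ y, k y) ^ (m - 1) * ∫⁻ y, ∫⁻ z, k y * G (z + y) ^ m := by
        rw [lintegral_lintegral_swap hjoint.aemeasurable]
    _ = (∫⁻ y, k y) ^ (m - 1) * ∫⁻ y, k y * ∫⁻ z, G z ^ m := by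
        congr 1
        refine lintegral_congr fun y => ?_
        have h5 : Measurable fun z => G (z + y) ^ m :=
          (hG.comp (measurable_id.add_const y)).pow_const m
        rw [lintegral_const_mul _ h5]
        congr 1
        exact lintegral_add_right_eq_self (fun z => G z ^ m) y
    _ = (∫⁻ y, k y) ^ (m - 1) * ((∫⁻ y, k y) * ∫⁻ z, G z ^ m) := by
        rw [lintegral_mul_const _ hk]
    _ = _ := by
        rw [← mul_assoc, ← RSUQ.rpredE hm.le]

theorem young' {k G : ℂ → ℝ≥0∞} (hk : Measurable k) (hG : Measurable G) {m : ℝ} (hm : 1 < m) :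
    (∫⁻ z, (A k G z) ^ m) ^ (1 / m) ≤ (∫⁻ y, k y) * (∫⁻ z, G z ^ m) ^ (1 / m) := by
  have hm0 : m ≠ 0 := by positivity
  refine (ENNReal.rpow_le_rpow (young hk hG hm) (by positivity)).trans (le_of_eq ?_)
  rw [ENNReal.mul_rpow_of_nonneg _ _ (by positivity), ← ENNReal.rpow_mul]
  congr 1
  have : m * (1 / m) = 1 := by field_simp
  rw [this, ENNReal.rpow_one]

theorem t : R_CMP := by
  intro χ₀ χ' hB hD
  obtain ⟨hsm, h0, hs, h1⟩ := hB
  obtain ⟨hm', h0', h1', hmom⟩ := hD
  have hcs : HasCompactSupport χ₀ := HasCompactSupport.intro (isCompact_closedBall (0 : ℂ) 1)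
    (fun x hx => hs x (by
      rw [mem_closedBall_zero_iff, not_le] at hx
      exact hx))
  obtain ⟨L, hL⟩ := ContDiff.lipschitzWith_of_hasCompactSupport hcs hsm (by norm_num)
  have hL' : ∀ x y, |χ₀ x - χ₀ y| ≤ (L : ℝ) * ‖x - y‖ := fun x y => by
    have := hL.dist_le_mul x y
    rwa [Real.dist_eq, dist_eq_norm] at this
  have hM0 : 0 ≤ ∫ y, ‖y‖ * χ' y :=
    integral_nonneg fun y => mul_nonneg (norm_nonneg _) (h0' y)
  have hL0 : (0 : ℝ) ≤ L := L.coe_nonneg
  refine ⟨2 * Real.pi * L * ∫ y, ‖y‖ * χ' y, by positivity, ?_⟩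
  intro m ρ l f hR hρ hl hf
  have hm : 1 < m := by linarith [hR.1]
  set k1 : ℂ → ℝ≥0∞ := fun y => ENNReal.ofReal (sc χ₀ l y) with hk1
  set k2 : ℂ → ℝ≥0∞ := fun y => ENNReal.ofReal (sc χ' ρ y) with hk2
  set F : ℂ → ℝ≥0∞ := fun z => ‖f z‖ₑ ^ 2 with hF
  have ms : Measurable (sc χ₀ l) := sc_meas hsm.continuous.measurable l
  have mk1 : Measurable k1 := ms.ennreal_ofReal
  have mk2 : Measurable k2 := (sc_meas hm' ρ).ennreal_ofReal
  have mF : Measurable F := hf.enorm.pow_const 2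
  set D : ℂ → ℝ≥0∞ := fun y =>
    ∫⁻ u, k2 u * ENNReal.ofReal |sc χ₀ l y - sc χ₀ l (y - u)| with hDd
  have jd : Measurable (fun p : ℂ × ℂ => |sc χ₀ l p.1 - sc χ₀ l (p.1 - p.2)|) :=
    ((ms.comp measurable_fst).sub (ms.comp (measurable_fst.sub measurable_snd))).norm
  have jD : Measurable (Function.uncurry fun y u : ℂ =>
      k2 u * ENNReal.ofReal |sc χ₀ l y - sc χ₀ l (y - u)|) :=
    (mk2.comp measurable_snd).mul jd.ennreal_ofReal
  have mD : Measurable D := jD.lintegral_prod_right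
  have jc : Measurable (Function.uncurry fun y u : ℂ => k2 u * k1 (y - u)) :=
    (mk2.comp measurable_snd).mul (mk1.comp (measurable_fst.sub measurable_snd))
  have mc : Measurable fun y => ∫⁻ u, k2 u * k1 (y - u) := jc.lintegral_prod_right
  have i1 : ∫⁻ y, k1 y = 1 := sc_one h0 h1 hl
  have i2 : ∫⁻ y, k2 y = 1 := sc_one h0' h1' hρ
  -- the integral of `D`
  have iD : ∫⁻ y, D y ≤
      ENNReal.ofReal (2 * Real.pi * L * (∫ y, ‖y‖ * χ' y) * (ρ / l)) := by
    calc ∫⁻ y, D y = ∫⁻ u, ∫⁻ y, k2 u * ENNReal.ofReal |sc χ₀ l y - sc χ₀ l (y - u)| :=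
          lintegral_lintegral_swap jD.aemeasurable
      _ ≤ ∫⁻ u, k2 u * (ENNReal.ofReal (2 * Real.pi * L / l) * ENNReal.ofReal ‖u‖) := by
          refine lintegral_mono fun u => ?_
          have h5 : Measurable fun y => ENNReal.ofReal |sc χ₀ l y - sc χ₀ l (y - u)| :=
            (jd.comp (measurable_id.prodMk measurable_const)).ennreal_ofReal
          rw [lintegral_const_mul _ h5]
          exact mul_le_mul' le_rfl (dif hs hL0 hL' hl u)
      _ = ENNReal.ofReal (2 * Real.pi * L / l) * ∫⁻ u, k2 u * ENNReal.ofReal ‖u‖ := by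
          rw [← lintegral_const_mul' _ _ ENNReal.ofReal_ne_top]
          refine lintegral_congr fun u => ?_
          ring
      _ = _ := by
          rw [hk2, sc_mom h0' hmom hρ, ← ENNReal.ofReal_mul (by positivity)]
          congr 1
          field_simp
  -- pointwise
  have hnn : ∀ v, 0 ≤ sc χ₀ l v := fun v => mul_nonneg (by positivity) (h0 _)
  have pt : ∀ y, k1 y ≤ (∫⁻ u, k2 u * k1 (y - u)) + D y := by
    intro y
    have h6 : Measurable fun u => k2 u * k1 (y - u) :=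
      mk2.mul (mk1.comp (measurable_const.sub measurable_id))
    calc k1 y = ∫⁻ u, k2 u * k1 y := by rw [lintegral_mul_const _ mk2, i2, one_mul]
      _ ≤ ∫⁻ u, (k2 u * k1 (y - u) +
          k2 u * ENNReal.ofReal |sc χ₀ l y - sc χ₀ l (y - u)|) := by
          refine lintegral_mono fun u => ?_
          rw [← mul_add]
          refine mul_le_mul' le_rfl ?_
          change ENNReal.ofReal _ ≤ ENNReal.ofReal _ + _
          rw [← ENNReal.ofReal_add (hnn _) (abs_nonneg _)]
          exact ENNReal.ofReal_le_ofReal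
            (by linarith [le_abs_self (sc χ₀ l y - sc χ₀ l (y - u))])
      _ = _ := lintegral_add_left h6 _
  -- the averages
  have av : ∀ z, A k1 F z ≤ A k1 (A k2 F) z + A D F z := by
    intro z
    have h6 : Measurable fun y => (∫⁻ u, k2 u * k1 (y - u)) * F (z + y) :=
      mc.mul (mF.comp (measurable_const.add measurable_id))
    calc A k1 F z ≤ ∫⁻ y, ((∫⁻ u, k2 u * k1 (y - u)) * F (z + y) + D y * F (z + y)) := by
          unfold A
          refine lintegral_mono fun y => ?_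
          rw [← add_mul]
          exact mul_le_mul' (pt y) le_rfl
      _ = A (fun y => ∫⁻ u, k2 u * k1 (y - u)) F z + A D F z := lintegral_add_left h6 _
      _ = _ := by rw [A_conv mk1 mk2 mF z]
  have eL1 : Lr m χ₀ l f = ∫⁻ z, (A k1 F z) ^ m := rfl
  have eL2 : Lr m χ' ρ f = ∫⁻ z, (A k2 F z) ^ m := rfl
  have eN : Nr m f = ∫⁻ z, F z ^ m := by
    unfold Nr
    refine lintegral_congr fun z => ?_
    change _ = (‖f z‖ₑ ^ 2) ^ m
    rw [← RSUQ.sq_rpow]
  rw [eL1, eL2, eN]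
  calc (∫⁻ z, (A k1 F z) ^ m) ^ (1 / m)
      ≤ (∫⁻ z, (A k1 (A k2 F) + A D F) z ^ m) ^ (1 / m) := by
        refine ENNReal.rpow_le_rpow (lintegral_mono fun z => ?_) (by positivity)
        exact ENNReal.rpow_le_rpow (av z) (by linarith)
    _ ≤ (∫⁻ z, (A k1 (A k2 F) z) ^ m) ^ (1 / m) +
          (∫⁻ z, (A D F z) ^ m) ^ (1 / m) :=
        ENNReal.lintegral_Lp_add_le (A_meas mk1 (A_meas mk2 mF)).aemeasurable
          (A_meas mD mF).aemeasurable hm.le
    _ ≤ _ := by
        refine add_le_add ?_ ?_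
        · refine (young' mk1 (A_meas mk2 mF) hm).trans (le_of_eq ?_)
          rw [i1, one_mul]
        · exact (young' mD mF hm).trans (mul_le_mul' iD le_rfl)

end Pool.Agent.H13PB.RCMP
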