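import Mathlib
import Pool.Agent.H78.PB.Stm
import Pool.Agent.N892.BW.FNT

/-!
Project PB, part FNT: a finite bound, real exponents.
-/

set_option autoImplicit false

open MeasureTheory ENNReal Filter Topology Complex
open scoped ComplexConjugate ContDiff

namespace Pool.Agent.H13PB.RFNT

open Pool.Agent.N892.BW Pool.Agent.H78.PB
open Pool.Agent.N892.BW.FNT (smooth_at cont_iter bounded)

theorem t (hM : R_MUL) : R_FNT := by
  intro m n a b hR hn ha
  have hm : 1 < m := by linarith [hR.1]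
  rcases lt_or_ge b a with hba | hab
  · refine ⟨0, le_rfl, fun h hh => ?_⟩
    have h0 : ∀ ξ, h ξ = 0 := by
      intro ξ
      by_contra hne
      have h1 := hh.2 ξ hne
      linarith [h1.1, h1.2]
    have h1 : ∀ x, Fi (Tn n h) x = 0 := by
      intro x
      unfold Fi Tn
      simp [h0]
    have h2 : Nr m (Fi (Tn n h)) = 0 := by
      unfold Nr
      have h3 : ∀ x, ‖Fi (Tn n h) x‖ₑ ^ (2 * m) = 0 := by
        intro x
        rw [h1 x, enorm_zero, ENNReal.zero_rpow_of_pos (by linarith)]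
      simp [h3]
    rw [h2]
    exact bot_le
  · obtain ⟨E, C₀, hC₀, H⟩ := hM
    obtain ⟨N, hN⟩ : ∃ N : ℕ, N = ⌈b / a⌉₊ := ⟨_, rfl⟩
    have h1 : 1 ≤ b / a := by rwa [one_le_div ha]
    have h2 : b / a ≤ (N : ℝ) := by rw [hN]; exact Nat.le_ceil _
    have hN1 : 1 ≤ N := by
      have h3 : (1 : ℝ) ≤ (N : ℝ) := h1.trans h2
      exact_mod_cast h3
    have hNpos : (0 : ℝ) < (N : ℝ) := by exact_mod_cast hN1
    have hbN : b ≤ a * (N : ℝ) := by
      rw [div_le_iff₀ ha] at h2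
      linarith
    choose M hMb using fun k : ℕ => bounded n k (a := a) (b := b) ha
    have hq : (0 : ℝ) < (N : ℝ) ^ 2 / a := by positivity
    obtain ⟨δ, hδ⟩ : ∃ δ : ℝ, δ = ∑ k ∈ Finset.range 5, |M k| / ((N : ℝ) ^ 2 / a) ^ k := ⟨_, rfl⟩
    have hterm : ∀ k : ℕ, 0 ≤ |M k| / ((N : ℝ) ^ 2 / a) ^ k := fun k =>
      div_nonneg (abs_nonneg _) (pow_pos hq k).le
    have hδ0 : 0 ≤ δ := by
      rw [hδ]
      exact Finset.sum_nonneg fun k _ => hterm k
    have hder : ∀ k : ℕ, k ≤ 4 → ∀ ξ : ℂ, a / 2 ≤ ‖ξ‖ → ‖ξ‖ ≤ 2 * b →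
        ‖iteratedFDeriv ℝ k (sy n) ξ‖ ≤ δ * ((N : ℝ) ^ 2 / a) ^ k := by
      intro k hk ξ h3 h4
      have h5 : |M k| / ((N : ℝ) ^ 2 / a) ^ k ≤ δ := by
        rw [hδ]
        exact Finset.single_le_sum (f := fun k => |M k| / ((N : ℝ) ^ 2 / a) ^ k)
          (fun j _ => hterm j) (Finset.mem_range.2 (by omega))
      rw [div_le_iff₀ (pow_pos hq k)] at h5
      exact (hMb k ξ h3 h4).trans ((le_abs_self _).trans h5)
    have hsm : ContDiffOn ℝ ∞ (sy n) {ξ : ℂ | ξ ≠ 0} := fun ξ hξ =>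
      (smooth_at n hξ).contDiffWithinAt
    have hb0 : 0 ≤ C₀ * (N : ℝ) ^ E * δ := by positivity
    refine ⟨(C₀ * (N : ℝ) ^ E * δ) ^ (2 * m), Real.rpow_nonneg hb0 _, fun h hh => ?_⟩
    exact H N a b δ (sy n) hN1 ha hab hbN hδ0 hsm hder h hh m hR

end Pool.Agent.H13PB.RFNT
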